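import Pool.Agent.Helper65.SG.Goals
import Pool.Agent.Helper29.BL.PS

/-!
# Project SG (MP_a41896_nt), packet SGT-NQH: heights from bounds of the coefficients
-/

set_option autoImplicit false

open MvPolynomial

namespace Pool.Agent.Helper71.SGT

open WeierstrassCurve Height Height.AdmissibleAbsValues
open Pool.Agent.Helper29.BL Pool.Agent.Helper92.Ru Pool.Agent.Helper42.SG

noncomputable section

theorem PS_mono' {K : Type} [Field K] [AdmissibleAbsValues K] {f g : AbsoluteValue K ℝ → ℝ}
    (hf : FS f) (hg : FS g)
    (h : ∀ v, v ∈ archAbsVal (K := K) ∨ v ∈ nonarchAbsVal (K := K) → f v ≤ g v) :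
    PS f ≤ PS g := by
  unfold PS
  refine add_le_add ?_ ?_
  · exact Multiset.sum_map_le_sum_map _ _ fun v hv => h v (Or.inl hv)
  · exact finsum_le_finsum' hf hg fun v => h v.val (Or.inr v.property)

theorem log_PH_le {K : Type} [Field K] [NumberField K] {σ : Type} (p : MvPolynomial σ K)
    (g : AbsoluteValue K ℝ → ℝ) (hg : FS g) (hg0 : ∀ v, 0 ≤ g v)
    (h : ∀ v, v ∈ archAbsVal (K := K) ∨ v ∈ nonarchAbsVal (K := K) → ∀ m,
      v (coeff m p) ≤ Real.exp (g v)) : Real.log (PH p) ≤ PS g := by
  by_cases hp : (fun e : p.support => coeff e.1 p) = 0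
  · unfold PH
    rw [hp, mulHeight_zero, Real.log_one]
    exact PS_nonneg hg hg0
  · have h1 : Real.log (PH p) = PS (fun v => Real.log (⨆ e : p.support, v (coeff e.1 p))) := by
      rw [PS_log_iSup hp]
      rfl
    rw [h1]
    refine PS_mono' (FS_log_iSup hp) hg fun v hv => ?_
    have h2 := iSup_abv_pos v hp
    obtain ⟨i, _⟩ := Function.ne_iff.mp hp
    haveI : Nonempty p.support := ⟨i⟩
    rw [Real.log_le_iff_le_exp h2]
    exact ciSup_le fun e => h v hv e.1

theorem t_NQH : Pool.Agent.Helper65.SG.NQH := by
  intro K _ _ B hB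
  refine ⟨⟨max (totalWeight K : ℝ) (PS fun v => Real.log (B v)), ?_, ?_⟩, ?_⟩
  · exact le_max_of_le_left (Nat.cast_nonneg _)
  · intro k N M A p hA h
    have hexp : (1 : ℝ) ≤ Real.exp A := Real.one_le_exp hA
    have hF1 : FS (K := K) fun v => (M : ℝ) * Real.log (cst v (Real.exp A)) :=
      (FS_log_cst (Real.exp A)).const_mul _
    have hF2 : FS (K := K) fun v => (N : ℝ) * Real.log (B v) := hB.fin.const_mul _
    have h1 := log_PH_le p (fun v => (M : ℝ) * Real.log (cst v (Real.exp A)) +
      (N : ℝ) * Real.log (B v)) (hF1.add hF2)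
      (fun v => add_nonneg (mul_nonneg (Nat.cast_nonneg _)
        (Real.log_nonneg (one_le_cst v hexp))) (mul_nonneg (Nat.cast_nonneg _)
        (Real.log_nonneg (hB.one_le v))))
      (by
        intro v hv m
        refine (h v hv m).trans (le_of_eq ?_)
        rw [Real.exp_add, mul_comm (M : ℝ), mul_comm (N : ℝ), Real.exp_mul, Real.exp_mul,
          Real.exp_log (cst_pos v hexp), Real.exp_log (lt_of_lt_of_le one_pos (hB.one_le v)),
          Real.rpow_natCast, Real.rpow_natCast])
    rw [PS_add hF1 hF2, PS_const_mul, PS_const_mul] at h1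
    have h2 := PS_log_cst (K := K) hexp
    rw [Real.log_exp] at h2
    refine h1.trans ?_
    have h3 : (M : ℝ) * PS (fun v : AbsoluteValue K ℝ => Real.log (cst v (Real.exp A))) ≤
        max (totalWeight K : ℝ) (PS fun v => Real.log (B v)) * (M * A) := by
      calc (M : ℝ) * PS (fun v : AbsoluteValue K ℝ => Real.log (cst v (Real.exp A)))
          ≤ M * (totalWeight K * A) := by gcongr
        _ = totalWeight K * (M * A) := by ring
        _ ≤ _ := by
          gcongr
          exact le_max_left _ _
    have h4 : (N : ℝ) * PS (fun v : AbsoluteValue K ℝ => Real.log (B v)) ≤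
        max (totalWeight K : ℝ) (PS fun v => Real.log (B v)) * N := by
      rw [mul_comm]
      gcongr
      exact le_max_right _ _
    rw [mul_add]
    exact add_le_add h3 h4
  · intro x A v hx hA hv
    by_cases hna : IsNonarchimedean v
    · rw [cst_of_nonarch hna]
      rcases hv with hv | hv
      · exfalso
        obtain ⟨φ, rfl⟩ := NumberField.mem_multisetInfinitePlace.mp hv
        have h1 := hna 1 1
        have h2 : NumberField.place φ (1 + 1) = 2 := by
          rw [NumberField.place_apply, map_add, map_one]
          norm_num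
        rw [h2, map_one, max_self] at h1
        norm_num at h1
      · obtain ⟨w, rfl⟩ := (NumberField.isFinitePlace_iff v).mp hv
        have h1 := NumberField.FinitePlace.norm_le_one K
          w.maximalIdeal (⟨x, hx⟩ : NumberField.RingOfIntegers K)
        rw [NumberField.FinitePlace.norm_embedding_eq] at h1
        exact h1
    · rw [cst_of_not_nonarch hna]
      rcases hv with hv | hv
      · obtain ⟨φ, rfl⟩ := NumberField.mem_multisetInfinitePlace.mp hv
        rw [NumberField.place_apply]
        exact (NumberField.norm_embedding_le_house x φ).trans hA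
      · exact absurd (isNonarchimedean v hv) hna

end

end Pool.Agent.Helper71.SGT
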